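import Mathlib
import Pool.Agent.R421.EK.One4

/-!
# The limit law of the Tate-Shafarevich groups of the curves with a rational cyclic subgroup of order four

All the elliptic curves over `ℚ` with a rational cyclic subgroup of order `4`, up to isomorphism (as pairs of
a curve and a subgroup), ordered by height. Let `d_1, …, d_n` be nonzero integers, no product `d_l d_m`
(`l ≠ m`) a square, and let `E_l` be the quadratic twist by `d_l` of the curve `E`.

(1) For every `ε > 0` there is `R` such that for all the curves with the exception of a proportion `ε` the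
ranks of the `E_l` are at most `R` and the groups `2 Ш(E_l)[2 ^ j]` have at most `2 ^ (R j)` elements, for all
`j ≥ 1`.

(2) But the groups `Ш(E_l)[2 ^ j]` are large: the `n` numbers
`(log₂ #Ш(E_l)[2 ^ j_l] - (3 / 2) log log H) / √(log log H)`, `H` the bound of the height, have a joint
Gaussian limit law, that of `(3 / 2) G + (1 / 2) G_l` with `n + 1` independent standard Gaussian variables
`G`, `G_1, …, G_n`. The exponents `j_l ≥ 1` may depend on the curve in an arbitrary way and may grow with `H`,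
they only have to be `o(√(log log H))`.

(3) The 2-Selmer groups of the `E_l` have the same limit law.

So each of the two groups has the variance `(5 / 2) log log H`, and the correlation between two different
twists is `9 / 10`.
-/

set_option autoImplicit false

namespace Pool.Agent.Results.MP_e23604_nt.FourIsogenyLaw

open Filter Topology MeasureTheory ProbabilityTheory

open Pool.Agent.Y667.SX (Sel2H)

open Pool.Agent.TH841.SH.D (Sha)

/-- the curve `y² = x³ + A x + B` over `ℚ` -/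
def E (A B : ℤ) : WeierstrassCurve ℚ := ⟨0, 0, 0, (A : ℚ), (B : ℚ)⟩

/-- the coefficient `A = N² - 3 e²`, `t = (e, N)` -/
def cA (t : ℤ × ℤ) : ℤ := t.2 ^ 2 - 3 * t.1 ^ 2

/-- the coefficient `B = 2 e³ - N² e`, `t = (e, N)` -/
def cB (t : ℤ × ℤ) : ℤ := 2 * t.1 ^ 3 - t.2 ^ 2 * t.1

/-- The pairs `t = (e, N)` such that `y² = x³ + A x + B`, `A = cA t`, `B = cB t`, is nonsingular, there
is no prime `p` with `p⁴ ∣ A` and `p⁶ ∣ B`, and the height `max (4 |A|³) (27 B²)` is at most `H`: the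
elliptic curves over `ℚ` of height at most `H`, up to isomorphism, together with a rational cyclic
subgroup of order four (see `marked`). -/
def Fam (H : ℕ) : Set (ℤ × ℤ) :=
  {t | 4 * cA t ^ 3 + 27 * cB t ^ 2 ≠ 0 ∧
    (∀ p : ℕ, p.Prime → ¬ ((p : ℤ) ^ 4 ∣ cA t ∧ (p : ℤ) ^ 6 ∣ cB t)) ∧
    4 * |cA t| ^ 3 ≤ H ∧ 27 * cB t ^ 2 ≤ H}

/-- `A = cA (e, N)` and `B = cB (e, N)` if and only if `e` is a root of `x³ + A x + B` and
`3 e² + A = N²`. (Then the points with abscissa `e + N` have order four, their double is `(e, 0)`.) -/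
theorem marked (A B e N : ℤ) :
    (A = cA (e, N) ∧ B = cB (e, N)) ↔ (e ^ 3 + A * e + B = 0 ∧ 3 * e ^ 2 + A = N ^ 2) := by
  unfold cA cB
  constructor
  · rintro ⟨rfl, rfl⟩
    constructor <;> ring
  · rintro ⟨h1, h2⟩
    have hA : A = N ^ 2 - 3 * e ^ 2 := by linarith
    refine ⟨hA, ?_⟩
    rw [hA] at h1
    linarith

/-- the twist by `D` of the curve `y² = x³ + A x + B`, `A = cA t`, `B = cB t`:
`y² = x³ + D² A x + D³ B` -/
def twist (D : ℤ) (t : ℤ × ℤ) : WeierstrassCurve ℚ := E (D ^ 2 * cA t) (D ^ 3 * cB t)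

/-- the proportion of the curves of `S` among the curves of height at most `H` -/
noncomputable def proportion (S : Set (ℤ × ℤ)) (H : ℕ) : ℝ :=
  ((Fam H ∩ S).ncard : ℝ) / (Fam H).ncard

/-- the rank -/
noncomputable def rank (W : WeierstrassCurve ℚ) : ℕ := Module.finrank ℤ W.toAffine.Point

/-- the elements of the Tate-Shafarevich group of `W` killed by `2 ^ j` -/
def tor (W : WeierstrassCurve ℚ) (j : ℕ) : Set (Sha W) := {x | (2 ^ j) • x = 0}

/-- the rank is at most `R`, `Ш[2 ^ j]` is finite and `#(2 Ш[2 ^ j]) ≤ 2 ^ (R j)` for all `j ≥ 1` -/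
def Typical (R : ℕ) (W : WeierstrassCurve ℚ) : Prop :=
  rank W ≤ R ∧ ∀ j : ℕ, 1 ≤ j → (tor W j).Finite ∧ ((fun x => x + x) '' tor W j).ncard ≤ 2 ^ (R * j)

/-- the normalisation of the binary logarithm of the number `m` -/
noncomputable def norm (H : ℕ) (m : ℕ) : ℝ :=
  (Real.logb 2 m - 3 / 2 * Real.log (Real.log H)) / √(Real.log (Real.log H))

/-- the probability that `(3 / 2) G + (1 / 2) G_l ≤ x l` for all `l`, where `G` and the `G_l` are the
coordinates of a standard Gaussian vector -/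
noncomputable def limitProb {n : ℕ} (x : Fin n → ℝ) : ℝ :=
  (stdGaussian (EuclideanSpace ℝ (Option (Fin n)))).real
    {w | ∀ l : Fin n, 3 / 2 * w none + 1 / 2 * w (some l) ≤ x l}

section proof

open Pool.Agent.R421.EK (Fht Hb Cc FM fht_fin mn_lim mn_tight mn_minimal marg Mn disc_iff Oks
  fam_sel Shq FM_le FM_union muT muT_null shift_le vc_short shaIQ tor_iso del_WI short_iso)

open Pool.Agent.R431.NO (OkS typ1)

open Pool.Agent.R421.NR (big_ll)

lemma fam_eq (H : ℕ) : Fam H = {t | Fht (4, 27) H t ∧ Mn t} := by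
  ext t
  unfold Fam Fht Hb
  rw [Set.mem_ofPred_eq, Set.mem_ofPred_eq]
  have h := disc_iff t.1 t.2
  have hm : Mn t ↔ ∀ p : ℕ, p.Prime → ¬ ((p : ℤ) ^ 4 ∣ cA t ∧ (p : ℤ) ^ 6 ∣ cB t) := mn_minimal t
  constructor
  · rintro ⟨h1, h4, h2, h3⟩
    refine ⟨⟨⟨?_, ?_⟩, h.1 h1⟩, hm.2 h4⟩
    · change ((4 : ℕ) : ℤ) * |cA t| ^ 3 ≤ H
      exact_mod_cast h2
    · change ((27 : ℕ) : ℤ) * cB t ^ 2 ≤ H
      exact_mod_cast h3
  · rintro ⟨⟨⟨h2, h3⟩, h1⟩, h4⟩
    refine ⟨h.2 h1, hm.1 h4, ?_, ?_⟩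
    · have h2' : ((4 : ℕ) : ℤ) * |cA t| ^ 3 ≤ H := h2
      exact_mod_cast h2'
    · have h3' : ((27 : ℕ) : ℤ) * cB t ^ 2 ≤ H := h3
      exact_mod_cast h3'

lemma cc : Cc (4, 27) := ⟨by norm_num, le_rfl, by norm_num, le_rfl⟩

lemma fin (H : ℕ) : (Fam H).Finite := by
  refine (fht_fin cc H).subset ?_
  rw [fam_eq]
  exact fun t ht => ht.1

lemma prop_eq (S : Set (ℤ × ℤ)) (H : ℕ) :
    proportion S H = (FM (4, 27) H S : ℝ) / (FM (4, 27) H Set.univ : ℝ) := by
  unfold proportion FM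
  have e1 : {t : ℤ × ℤ | (Fht (4, 27) H t ∧ Mn t) ∧ t ∈ S} = Fam H ∩ S := by
    rw [fam_eq]
    rfl
  have e2 : {t : ℤ × ℤ | (Fht (4, 27) H t ∧ Mn t) ∧ t ∈ (Set.univ : Set (ℤ × ℤ))} = Fam H := by
    rw [fam_eq]
    ext t
    simp
  rw [e1, e2]

/-- comparison outside of a small set -/
lemma prop_cmp {S T G : Set (ℤ × ℤ)} {H : ℕ} (hpos : 0 < (Fam H).ncard)
    (h : ∀ t ∈ Fam H, t ∈ S → t ∈ G → t ∈ T) :
    proportion S H ≤ proportion T H + (1 - proportion G H) := by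
  have hp : (0 : ℝ) < (Fam H).ncard := by exact_mod_cast hpos
  unfold proportion
  have a1 : (Fam H ∩ S).ncard ≤ (Fam H ∩ T).ncard + (Fam H \ (Fam H ∩ G)).ncard := by
    refine (Set.ncard_le_ncard ?_ (((fin H).subset Set.inter_subset_left).union
      ((fin H).subset Set.sdiff_subset))).trans (Set.ncard_union_le _ _)
    intro t ht
    by_cases h' : t ∈ G
    · exact Or.inl ⟨ht.1, h t ht.1 ht.2 h'⟩
    · exact Or.inr ⟨ht.1, fun h'' => h' h''.2⟩
  have a2 := Set.ncard_sdiff_add_ncard_of_subset (s := Fam H ∩ G) (t := Fam H)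
    Set.inter_subset_left (fin H)
  have a1' : ((Fam H ∩ S).ncard : ℝ) ≤ (Fam H ∩ T).ncard + (Fam H \ (Fam H ∩ G)).ncard := by
    exact_mod_cast a1
  have a2' : ((Fam H \ (Fam H ∩ G)).ncard : ℝ) + (Fam H ∩ G).ncard = (Fam H).ncard := by
    exact_mod_cast a2
  rw [← sub_nonneg]
  have e : ((Fam H ∩ T).ncard : ℝ) / (Fam H).ncard + (1 - ((Fam H ∩ G).ncard : ℝ) /
      (Fam H).ncard) - ((Fam H ∩ S).ncard : ℝ) / (Fam H).ncard =
      ((Fam H ∩ T).ncard + ((Fam H).ncard - (Fam H ∩ G).ncard) - (Fam H ∩ S).ncard) /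
        (Fam H).ncard := by
    field_simp
  rw [e]
  refine div_nonneg ?_ hp.le
  linarith

lemma prop_mono {S S' : Set (ℤ × ℤ)} (h : S ⊆ S') (H : ℕ) : proportion S H ≤ proportion S' H := by
  unfold proportion
  refine div_le_div_of_nonneg_right ?_ (Nat.cast_nonneg _)
  exact_mod_cast Set.ncard_le_ncard (Set.inter_subset_inter_right _ h)
    ((fin H).subset Set.inter_subset_left)

/-- the pairs with the good structure -/
def Good {n : ℕ} (d : Fin n → ℤ) (R : ℕ) : Set (ℤ × ℤ) :=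
  {t | ∀ l : Fin n, ∃ S : ℝ, OkS (S - R) (S + R) R
    (d l * (3 * t.1 + 2 * t.2), d l * (3 * t.1 - 2 * t.2))}

lemma tight {n : ℕ} (hn : 0 < n) (d : Fin n → ℤ) (hd : ∀ l, d l ≠ 0)
    (hdd : ∀ l m, l ≠ m → ∀ r : ℤ, r ^ 2 ≠ d l * d m) (ε : ℝ) (hε : 0 < ε) :
    ∃ R H₀ : ℕ, ∀ H : ℕ, H₀ ≤ H → 0 < (Fam H).ncard ∧ 1 - ε ≤ proportion (Good d R) H := by
  obtain ⟨R, Y0, h⟩ := mn_tight ⟨0, hn⟩ (4, 27) cc d hd hdd ε hε
  refine ⟨R, Y0, fun H hH => ?_⟩
  obtain ⟨h1, h2⟩ := h H hH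
  have e : FM (4, 27) H Set.univ = (Fam H).ncard := by
    unfold FM
    rw [fam_eq]
    congr 1
    ext t
    simp
  refine ⟨by rwa [e] at h1, ?_⟩
  rw [prop_eq]
  have h1' : (0 : ℝ) < (FM (4, 27) H Set.univ : ℝ) := by exact_mod_cast h1
  rw [le_div_iff₀ h1']
  exact h2 (Good d R) fun t ht l => ht (0, l)

/-- the law of the coordinates -/
noncomputable def nu (n : ℕ) : Measure (EuclideanSpace ℝ (Fin n)) :=
  (muT 3 n).map (fun w => WithLp.toLp 2 (fun l => w (0, l)))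

lemma pr_meas (n : ℕ) : Measurable (fun w : EuclideanSpace ℝ (Fin 3 × Fin n) =>
    (WithLp.toLp 2 (fun l => w (0, l)) : EuclideanSpace ℝ (Fin n))) := by
  refine (WithLp.measurable_toLp 2 _).comp (measurable_pi_lambda _ fun l => ?_)
  fun_prop

instance (n : ℕ) : IsProbabilityMeasure (nu n) :=
  Measure.isProbabilityMeasure_map (pr_meas n).aemeasurable

lemma nu_null {n : ℕ} (l : Fin n) (c : ℝ) : nu n {w | w l = c} = 0 := by
  unfold nu
  rw [Measure.map_apply (pr_meas n) (measurableSet_eq_fun (by fun_prop) measurable_const)]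
  exact muT_null 3 n (0, l) c

lemma nu_eq {n : ℕ} (x : Fin n → ℝ) : (nu n).real {w | ∀ l, w l ≤ x l} = limitProb x := by
  have hm : MeasurableSet {w : EuclideanSpace ℝ (Fin n) | ∀ l, w l ≤ x l} := by
    have : {w : EuclideanSpace ℝ (Fin n) | ∀ l, w l ≤ x l} = ⋂ l, {w | w l ≤ x l} := by
      ext w
      simp
    rw [this]
    exact MeasurableSet.iInter fun i => (isClosed_le (by fun_prop) continuous_const).measurableSet
  unfold nu limitProb
  rw [map_measureReal_apply (pr_meas n) hm, ← marg]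
  rfl

/-- **the general law**: a statistic depending on an exponent -/
lemma law_gen {n : ℕ} (hn : 0 < n) (d : Fin n → ℤ) (hd : ∀ l, d l ≠ 0)
    (hdd : ∀ l m, l ≠ m → ∀ r : ℤ, r ^ 2 ≠ d l * d m)
    (F : Fin n → ℕ → ℤ → ℤ → ℝ) (Q : Fin n → ℕ → ℤ → ℤ → Prop)
    (hF : ∀ (R : ℕ) (l : Fin n) (j : ℕ) (e N : ℤ) (S : ℝ), 1 ≤ j →
      OkS (S - R) (S + R) R (d l * (3 * e + 2 * N), d l * (3 * e - 2 * N)) →
      Q l j e N ∧ |F l j e N - S| ≤ (4 * R + 3) * j) (x : Fin n → ℝ) (ε : ℝ) (hε : 0 < ε) :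
    ∃ δ : ℝ, 0 < δ ∧ ∃ H₀ : ℕ, ∀ H : ℕ, H₀ ≤ H → ∀ j : Fin n → ℤ × ℤ → ℕ,
      (∀ l, ∀ t ∈ Fam H, 1 ≤ j l t ∧ (j l t : ℝ) ≤ δ * √(Real.log (Real.log H))) →
      |proportion {t | ∀ l, Q l (j l t) t.1 t.2 ∧ (F l (j l t) t.1 t.2 -
        3 / 2 * Real.log (Real.log H)) / √(Real.log (Real.log H)) ≤ x l} H - limitProb x| ≤ ε := by
  obtain ⟨η, hη0, hη1, hη2⟩ := shift_le (nu n) x (ε / 4) nu_null (by positivity)
  rw [nu_eq, nu_eq] at hη1
  rw [nu_eq, nu_eq] at hη2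
  have hlim := fun y : Fin n → ℝ => mn_lim ⟨0, hn⟩ (4, 27) cc d hd hdd (fun l => F l 1)
    (fun l => Q l 1) (fun R => ⟨(4 * R + 3) * (1 : ℕ), fun l e N S h => (hF R l 1 e N S le_rfl h).2⟩)
    (fun R l e N S h => (hF R l 1 e N S le_rfl h).1) y
  have hl1 := hlim fun l => x l - η
  have hl2 := hlim fun l => x l + η
  rw [marg, Metric.tendsto_atTop] at hl1 hl2
  obtain ⟨H₁, h1⟩ := hl1 (ε / 4) (by positivity)
  obtain ⟨H₂, h2⟩ := hl2 (ε / 4) (by positivity)
  obtain ⟨R, H₃, h3⟩ := tight hn d hd hdd (ε / 4) (by positivity)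
  obtain ⟨H₄, h4⟩ := big_ll 1
  refine ⟨η / (2 * (4 * R + 3)), by positivity, H₁ + H₂ + H₃ + H₄, fun H hH j hj => ?_⟩
  have g1 := h1 H (by omega)
  have g2 := h2 H (by omega)
  obtain ⟨hpos, g3⟩ := h3 H (by omega)
  have hll := h4 H (by omega)
  rw [← prop_eq, Real.dist_eq] at g1 g2
  have g1' := (abs_lt.1 g1).1
  have g2' := (abs_lt.1 g2).2
  have hs0 : 0 < √(Real.log (Real.log H)) := Real.sqrt_pos.2 (by linarith)
  have key : ∀ t ∈ Fam H, t ∈ Good d R → ∀ l, Q l (j l t) t.1 t.2 ∧ Q l 1 t.1 t.2 ∧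
      |(F l (j l t) t.1 t.2 - 3 / 2 * Real.log (Real.log H)) / √(Real.log (Real.log H)) -
        (F l 1 t.1 t.2 - 3 / 2 * Real.log (Real.log H)) / √(Real.log (Real.log H))| ≤ η := by
    intro t ht hG l
    obtain ⟨S, hS⟩ := hG l
    obtain ⟨a1, a2⟩ := hF R l (j l t) t.1 t.2 S (hj l t ht).1 hS
    obtain ⟨b1, b2⟩ := hF R l 1 t.1 t.2 S le_rfl hS
    refine ⟨a1, b1, ?_⟩
    rw [← sub_div, abs_div, abs_of_pos hs0, div_le_iff₀ hs0]
    have hj1 : (1 : ℝ) ≤ j l t := by exact_mod_cast (hj l t ht).1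
    have hj2 := (hj l t ht).2
    have hR : (0 : ℝ) < 2 * (4 * R + 3) := by positivity
    rw [div_mul_eq_mul_div, le_div_iff₀ hR] at hj2
    rw [Nat.cast_one, mul_one] at b2
    have e : F l (j l t) t.1 t.2 - 3 / 2 * Real.log (Real.log H) -
        (F l 1 t.1 t.2 - 3 / 2 * Real.log (Real.log H)) =
        (F l (j l t) t.1 t.2 - S) - (F l 1 t.1 t.2 - S) := by ring
    rw [e]
    refine (abs_sub _ _).trans ?_
    have hc : (4 * (R : ℝ) + 3) ≤ (4 * R + 3) * j l t := by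
      have : (0 : ℝ) ≤ 4 * R + 3 := by positivity
      nlinarith
    nlinarith
  have c1 := prop_cmp (S := {t | (∀ l, Q l 1 t.1 t.2) ∧ ∀ l, (F l 1 t.1 t.2 -
        3 / 2 * Real.log (Real.log H)) / √(Real.log (Real.log H)) ≤ x l - η})
    (T := {t | ∀ l, Q l (j l t) t.1 t.2 ∧ (F l (j l t) t.1 t.2 -
        3 / 2 * Real.log (Real.log H)) / √(Real.log (Real.log H)) ≤ x l}) (G := Good d R) hpos
    (fun t ht hS hG l => by
      obtain ⟨a1, -, a3⟩ := key t ht hG l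
      have a4 := (abs_le.1 a3).2
      have a5 := hS.2 l
      exact ⟨a1, by linarith⟩)
  have c2 := prop_cmp (S := {t | ∀ l, Q l (j l t) t.1 t.2 ∧ (F l (j l t) t.1 t.2 -
        3 / 2 * Real.log (Real.log H)) / √(Real.log (Real.log H)) ≤ x l})
    (T := {t | (∀ l, Q l 1 t.1 t.2) ∧ ∀ l, (F l 1 t.1 t.2 -
        3 / 2 * Real.log (Real.log H)) / √(Real.log (Real.log H)) ≤ x l + η}) (G := Good d R) hpos
    (fun t ht hS hG => by
      refine ⟨fun l => (key t ht hG l).2.1, fun l => ?_⟩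
      obtain ⟨-, -, a3⟩ := key t ht hG l
      have a4 := (abs_le.1 a3).1
      have a5 := (hS l).2
      linarith)
  have m1 : limitProb (fun l => x l - η) = (stdGaussian (EuclideanSpace ℝ (Option (Fin n)))).real
    {w | ∀ l : Fin n, 3 / 2 * w none + 1 / 2 * w (some l) ≤ x l - η} := rfl
  have m2 : limitProb (fun l => x l + η) = (stdGaussian (EuclideanSpace ℝ (Option (Fin n)))).real
    {w | ∀ l : Fin n, 3 / 2 * w none + 1 / 2 * w (some l) ≤ x l + η} := rfl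
  rw [abs_le]
  constructor <;> linarith

lemma dbl_iso {W W' : WeierstrassCurve ℚ} (I : Sha W' ≃+ Sha W) (j : ℕ) :
    ((fun x => x + x) '' tor W j).ncard =
      {y : Sha W' | ∃ x, (2 ^ j) • x = 0 ∧ y = x + x}.ncard := by
  have e1 : (fun x => x + x) '' tor W j =
      I '' {y : Sha W' | ∃ x, (2 ^ j) • x = 0 ∧ y = x + x} := by
    ext y
    constructor
    · rintro ⟨x, hx, rfl⟩
      refine ⟨I.symm x + I.symm x, ⟨I.symm x, ?_, rfl⟩, ?_⟩
      · rw [← map_nsmul]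
        have hx' : (2 ^ j) • x = 0 := hx
        rw [hx', map_zero]
      · rw [map_add, I.apply_symm_apply]
    · rintro ⟨_, ⟨x, hx, rfl⟩, rfl⟩
      refine ⟨I x, ?_, ?_⟩
      · change (2 ^ j) • I x = 0
        rw [← map_nsmul, hx, map_zero]
      · rw [map_add]
  rw [e1, Set.ncard_image_of_injective _ I.injective]

lemma typical_of {D e N : ℤ} {R : ℕ} {lo hi : ℝ}
    (h : OkS lo hi R (D * (3 * e + 2 * N), D * (3 * e - 2 * N))) : Typical R (twist D (e, N)) := by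
  obtain ⟨g1, g2, g3, -⟩ := id h
  have g1' : D * (3 * e + 2 * N) ≠ 0 := g1
  have g2' : D * (3 * e - 2 * N) ≠ 0 := g2
  have g3' : D * (3 * e + 2 * N) ≠ D * (3 * e - 2 * N) := g3
  obtain ⟨r1, r2⟩ := typ1 h
  obtain ⟨⟨I⟩, hrk⟩ := short_iso (del_WI g3' g1' g2')
  obtain ⟨k1, k2, -⟩ := fam_sel h
  refine ⟨k1, fun j hj => ⟨(k2 j hj).1, ?_⟩⟩
  obtain ⟨-, -, -, r3⟩ := r2 j hj
  exact (dbl_iso (W := twist D (e, N)) I j).le.trans r3

lemma sha_stat {n : ℕ} (d : Fin n → ℤ) (R : ℕ) (l : Fin n) (j : ℕ) (e N : ℤ) (S : ℝ) (hj : 1 ≤ j)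
    (h : OkS (S - R) (S + R) R (d l * (3 * e + 2 * N), d l * (3 * e - 2 * N))) :
    (tor (twist (d l) (e, N)) j).Finite ∧
      |Real.logb 2 ((tor (twist (d l) (e, N)) j).ncard : ℕ) - S| ≤ (4 * R + 3) * j := by
  obtain ⟨-, k, -⟩ := fam_sel h
  obtain ⟨k0, k1, k2⟩ := k j hj
  have k1' : S - R ≤ Real.logb 2 ((tor (twist (d l) (e, N)) j).ncard : ℕ) := k1
  have k2' : Real.logb 2 ((tor (twist (d l) (e, N)) j).ncard : ℕ) ≤
    S + R + ((R + 1 : ℕ) : ℝ) * (j : ℕ) := k2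
  refine ⟨k0, ?_⟩
  have hR : (0 : ℝ) ≤ R := Nat.cast_nonneg _
  have hj1 : (1 : ℝ) ≤ j := by exact_mod_cast hj
  push_cast at k2'
  rw [abs_le]
  constructor <;> nlinarith

lemma sel_stat {n : ℕ} (d : Fin n → ℤ) (R : ℕ) (l : Fin n) (j : ℕ) (e N : ℤ) (S : ℝ) (hj : 1 ≤ j)
    (h : OkS (S - R) (S + R) R (d l * (3 * e + 2 * N), d l * (3 * e - 2 * N))) :
    Finite (Sel2H (twist (d l) (e, N))) ∧
      |Real.logb 2 (Nat.card (Sel2H (twist (d l) (e, N))) : ℕ) - S| ≤ (4 * R + 3) * j := by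
  obtain ⟨-, -, ⟨k0, k1, k2⟩, -⟩ := fam_sel h
  have k1' : S - R ≤ Real.logb 2 (Nat.card (Sel2H (twist (d l) (e, N)))) := k1
  have k2' : Real.logb 2 (Nat.card (Sel2H (twist (d l) (e, N)))) ≤
    S + R + ((R + 1 : ℕ) : ℝ) + ((R + 2 : ℕ) : ℝ) := k2
  refine ⟨k0, ?_⟩
  have hR : (0 : ℝ) ≤ R := Nat.cast_nonneg _
  have hj1 : (1 : ℝ) ≤ j := by exact_mod_cast hj
  push_cast at k2'
  rw [abs_le]
  constructor <;> nlinarith

end proof

/-- **Theorem.** Let `n ≥ 1` and let `d_1, …, d_n` be nonzero integers such that `d_l d_m` is not a square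
for `l ≠ m`.

(1) For `ε > 0` there are `R` and `H₀` such that for `H ≥ H₀` the proportion of the curves of height at most
`H` all of whose twists by the `d_l` are typical is at least `1 - ε`.

(2) For all real numbers `x l` and `ε > 0` there are `δ > 0` and `H₀` such that for `H ≥ H₀` and all the
functions `j l t` of the curve `t` with `1 ≤ j l t ≤ δ √(log log H)`, the proportion of the curves of height
at most `H` for which all the groups `Ш(E_l)[2 ^ (j l t)]` are finite and the normalised logarithms of their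
orders are at most `x l` is within `ε` of the probability that `(3 / 2) G + (1 / 2) G_l ≤ x l` for all `l`.

(3) The proportion of the curves of height at most `H` for which the 2-Selmer groups of the `E_l` are finite
and the normalised logarithms of their orders are at most `x l` tends to the same probability. -/
theorem result {n : ℕ} (hn : 0 < n) (d : Fin n → ℤ) (hd : ∀ l, d l ≠ 0)
    (hdd : ∀ l m, l ≠ m → ¬ IsSquare (d l * d m)) :
    (∀ ε : ℝ, 0 < ε → ∃ R H₀ : ℕ, ∀ H : ℕ, H₀ ≤ H →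
      1 - ε ≤ proportion {t | ∀ l, Typical R (twist (d l) t)} H) ∧
    (∀ (x : Fin n → ℝ) (ε : ℝ), 0 < ε → ∃ δ : ℝ, 0 < δ ∧ ∃ H₀ : ℕ, ∀ H : ℕ, H₀ ≤ H →
      ∀ j : Fin n → ℤ × ℤ → ℕ,
        (∀ l, ∀ t ∈ Fam H, 1 ≤ j l t ∧ (j l t : ℝ) ≤ δ * √(Real.log (Real.log H))) →
        |proportion {t | ∀ l, (tor (twist (d l) t) (j l t)).Finite ∧
          norm H (tor (twist (d l) t) (j l t)).ncard ≤ x l} H - limitProb x| ≤ ε) ∧
    ∀ x : Fin n → ℝ, Tendsto (fun H : ℕ => proportion {t | ∀ l, Finite (Sel2H (twist (d l) t)) ∧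
      norm H (Nat.card (Sel2H (twist (d l) t))) ≤ x l} H) atTop (𝓝 (limitProb x)) := by
  have hdd' : ∀ l m, l ≠ m → ∀ r : ℤ, r ^ 2 ≠ d l * d m :=
    fun l m hlm r hr => hdd l m hlm ⟨r, by rw [← hr]; ring⟩
  refine ⟨fun ε hε => ?_, fun x ε hε => ?_, fun x => ?_⟩
  · obtain ⟨R, H₀, h⟩ := tight hn d hd hdd' ε hε
    refine ⟨R, H₀, fun H hH => (h H hH).2.trans (prop_mono ?_ H)⟩
    intro t ht l
    obtain ⟨S, hS⟩ := ht l
    exact typical_of hS
  · exact law_gen hn d hd hdd'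
      (fun l j e N => Real.logb 2 ((tor (twist (d l) (e, N)) j).ncard : ℕ))
      (fun l j e N => (tor (twist (d l) (e, N)) j).Finite) (sha_stat d) x ε hε
  · rw [Metric.tendsto_atTop]
    intro ε hε
    obtain ⟨δ, hδ, H₀, h⟩ := law_gen hn d hd hdd'
      (fun l _ e N => Real.logb 2 (Nat.card (Sel2H (twist (d l) (e, N))) : ℕ))
      (fun l _ e N => Finite (Sel2H (twist (d l) (e, N)))) (sel_stat d) x (ε / 2) (by positivity)
    obtain ⟨H₁, h1⟩ := Pool.Agent.R421.NR.big_ll ((1 / δ) ^ 2)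
    refine ⟨H₀ + H₁, fun H hH => ?_⟩
    have h2 := h H (by omega) (fun _ _ => 1) (fun l t _ => ⟨le_rfl, by
      have h3 := h1 H (by omega)
      have h4 : 1 / δ ≤ √(Real.log (Real.log H)) := Real.le_sqrt_of_sq_le h3
      rw [div_le_iff₀ hδ] at h4
      rw [Nat.cast_one]
      linarith⟩)
    rw [Real.dist_eq]
    exact lt_of_le_of_lt h2 (by linarith)

end Pool.Agent.Results.MP_e23604_nt.FourIsogenyLaw
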