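import Mathlib
import Pool.Agent.N870.EC.Pen3
import Pool.Agent.N870.EC.Selge
import Pool.Agent.N861.EC.PW
import Pool.Agent.N265.EC.Mer1
import Pool.Agent.N935.EC.Merp
import Pool.Agent.N281.EC.Mer2
import Pool.Agent.N870.D.Fin

/-!
# The moments of `2 ^ rank * #Ш[2]` in one-parameter families with full 2-torsion

`W_t : y² = x (x - D(t) u₀(t)) (x - D(t) u₁(t))`, where `u₀`, `u₁` and `u₂ = u₀ - u₁` are
polynomials with integer coefficients, `u_k` being a constant times a product of `n_k` irreducible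
polynomials, these `n = n₀ + n₁ + n₂` irreducible polynomials being pairwise different, and `D` is
any nonzero polynomial not divisible by one of them. Let `s_k` be the number of the irreducible
factors of `u_k` at which the elliptic curve over `ℚ(t)` has split multiplicative reduction. For
real `s > 0` we consider the average of `(2 ^ rank * #Ш(W_t)[2]) ^ s` over all the integers `t` with
`N < t ≤ N + M`, uniformly for `|N| ≤ M ^ L`.

* If `D` has at most `m` different irreducible factors of positive degree, then the average is at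
  least `(log M) ^ (e_k(s) - ε)` for large `M` and `k = 0, 1, 2`, where
  `e_k(s) = (2 ^ s - 1) (n_k + s_k) / 2 - (1 - 2 ^ (-s)) (n - n_k + m)`.
* All the moments are bounded if and only if the family consists of quadratic twists of one curve.
* If `D` is constant, then for every integer `q > 0` the average of `(2 ^ rank * #Ш[2]) ^ q` is at
  most a constant times `(1 + log M) ^ g(q)` and at least `(log M) ^ (g(q) - ε)` for large `M`,
  where `g(q) = max (0, e₀(q), e₁(q), e₂(q))` with `m = 0`; it is bounded if and only if `g(q) = 0`.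
  So the average of `2 ^ rank * #Ш[2]` is bounded if and only if `2 n_k + s_k ≤ n` for
  `k = 0, 1, 2`, the second moment is bounded if and only if `n₀ = n₁ = n₂` and `s_k = 0` for all
  `k`, and if `n > 0`, then no moment of order `s > 2` is bounded.
* But if `2 n_k < n` for all `k`, then all the moments are bounded outside of one set of integers
  `t` of density zero.

The parts SELGE, PW, MER1, MERP, MER2, ATX, CMB are due to helper870, helper861, helper265,
helper935, helper281, helper222 and helper263; the case `q = 1`, `g(1) = 0` of the upper bound in the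
third statement is the theorem of the starting file `MP_157626_nt.UnbalancedPencils`, the last
statement uses the project PM of helper841.
-/

set_option autoImplicit false

namespace Pool.Agent.Results.MP_e23604_nt.MomentGrowthInPencils

open Finset Polynomial

open Pool.Agent.TH841.SH.D (ShaTor HasDiv rk)

/-- the curve `y² = x (x - A) (x - B)` over `ℚ` -/
def E (A B : ℤ) : WeierstrassCurve ℚ := ⟨0, -((A : ℚ) + B), 0, (A : ℚ) * B, 0⟩

/-- `u_k = a_k ∏ f_{k,i}` -/
noncomputable def u {n : Fin 3 → ℕ} (a : Fin 3 → ℤ) (f : ∀ k : Fin 3, Fin (n k) → ℤ[X])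
    (k : Fin 3) : ℤ[X] := C (a k) * ∏ i, f k i

/-- `v` is a square modulo `f`, over the rationals -/
def SqMod (f v : ℤ[X]) : Prop := ∃ q : ℚ[X], f.map (Int.castRingHom ℚ) ∣
  (q ^ 2 - v.map (Int.castRingHom ℚ))

/-- modulo a factor `f` of `u_k`, the curve `y² = x (x - D u₀) (x - D u₁)` has a node whose tangent
directions are the square roots of `v_k`; so the reduction at `f` is split if and only if `v_k` is a
square modulo `f` -/
noncomputable def v {n : Fin 3 → ℕ} (D : ℤ[X]) (a : Fin 3 → ℤ)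
    (f : ∀ k : Fin 3, Fin (n k) → ℤ[X]) : Fin 3 → ℤ[X] :=
  ![-(D * u a f 1), -(D * u a f 0), D * u a f 0]

open Classical in
/-- the number `s_k` of the factors of `u_k` with split multiplicative reduction -/
noncomputable def sp {n : Fin 3 → ℕ} (D : ℤ[X]) (a : Fin 3 → ℤ)
    (f : ∀ k : Fin 3, Fin (n k) → ℤ[X]) (k : Fin 3) : ℕ :=
  (univ.filter (fun i => SqMod (f k i) (v D a f k))).card

/-- the fibre at `t` -/
noncomputable def fib {n : Fin 3 → ℕ} (D : ℤ[X]) (a : Fin 3 → ℤ)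
    (f : ∀ k : Fin 3, Fin (n k) → ℤ[X]) (t : ℤ) : WeierstrassCurve ℚ :=
  E ((D * u a f 0).eval t) ((D * u a f 1).eval t)

open Classical in
/-- the sum of `(2 ^ rank * #Ш[2]) ^ s` over the integers `t` with `N < t ≤ N + M` for which the
fibre is an elliptic curve -/
noncomputable def Mom {n : Fin 3 → ℕ} (D : ℤ[X]) (a : Fin 3 → ℤ)
    (f : ∀ k : Fin 3, Fin (n k) → ℤ[X]) (s : ℝ) (N : ℤ) (M : ℕ) : ℝ :=
  ∑ t ∈ (Ioc N (N + M)).filter (fun t => ∀ k, (D * u a f k).eval t ≠ 0),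
    ((2 : ℝ) ^ rk (fib D a f t) * (Nat.card (ShaTor (fib D a f t) 2) : ℝ)) ^ s

/-- the moment of order `s` is bounded: for every `L` the average of `(2 ^ rank * #Ш[2]) ^ s` over
`N < t ≤ N + M` is bounded, uniformly for `|N| ≤ M ^ L` -/
def Bounded {n : Fin 3 → ℕ} (D : ℤ[X]) (a : Fin 3 → ℤ)
    (f : ∀ k : Fin 3, Fin (n k) → ℤ[X]) (s : ℝ) : Prop :=
  ∀ L : ℕ, ∃ C : ℝ, ∀ (N : ℤ) (M : ℕ), 1 ≤ M → |N| ≤ (M : ℤ) ^ L → Mom D a f s N M ≤ C * M

/-- the exponent `e_k(s)`, for constant `D` -/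
noncomputable def e {n : Fin 3 → ℕ} (D : ℤ[X]) (a : Fin 3 → ℤ)
    (f : ∀ k : Fin 3, Fin (n k) → ℤ[X]) (s : ℝ) (k : Fin 3) : ℝ :=
  (2 ^ s - 1) * (((n k : ℝ) + sp D a f k) / 2) - (1 - 2 ^ (-s)) * (n 0 + n 1 + n 2 - n k : ℝ)

/-- the exponent `g(s)` of the growth of the moment of order `s`, for constant `D` -/
noncomputable def grow {n : Fin 3 → ℕ} (D : ℤ[X]) (a : Fin 3 → ℤ)
    (f : ∀ k : Fin 3, Fin (n k) → ℤ[X]) (s : ℝ) : ℝ :=
  max 0 (max (e D a f s 0) (max (e D a f s 1) (e D a f s 2)))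

open Classical in
/-- the integers `t` outside of `Z` with `N < t ≤ N + M` -/
noncomputable def Par (Z : Set ℤ) (N : ℤ) (M : ℕ) : Finset ℤ :=
  (Ioc N (N + M)).filter (fun t => t ∉ Z)

open Classical in
/-- a set of density zero, uniformly in short intervals: for all `L` and `ε > 0` and all large `M`
every interval `(N, N + M]` with `|N| ≤ M ^ L` contains at most `ε M` elements of `Z` -/
def DensityZero (Z : Set ℤ) : Prop := ∀ (L : ℕ) (ε : ℝ), 0 < ε → ∃ M₀ : ℕ, ∀ (N : ℤ) (M : ℕ),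
  M₀ ≤ M → |N| ≤ (M : ℤ) ^ L → (((Ioc N (N + (M : ℤ))).filter (fun t => t ∈ Z)).card : ℝ) ≤ ε * M

open Classical in
/-- **Theorem.** Let `u_k = a_k ∏_{i < n_k} f_{k,i}`, `k = 0, 1, 2`, be polynomials with integer
coefficients with `u₀ - u₁ = u₂`, where `a_k ≠ 0` and the `n₀ + n₁ + n₂` polynomials `f_{k,i}` are
irreducible of positive degree and pairwise non-associated, let `D ≠ 0` be a polynomial with integer
coefficients not divisible by any `f_{k,i}`, and let `s_k` be the number of the `i` such that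
`y² = x (x - D u₀) (x - D u₁)` has split multiplicative reduction at `f_{k,i}`.

(1) If all the prime factors of `D` of positive degree are among `g_1, ..., g_m`, then for all
`s, ε > 0`, `L` and `k`, for all large `M` and `|N| ≤ M ^ L` the sum of `(2 ^ rank * #Ш(W_t)[2]) ^ s`
over `N < t ≤ N + M` is at least `M (log M) ^ (e_k(s) - ε)`, where
`e_k(s) = (2 ^ s - 1) (n_k + s_k) / 2 - (1 - 2 ^ (-s)) (n₀ + n₁ + n₂ - n_k + m)`.

(2) All the moments are bounded if and only if `n₀ = n₁ = n₂ = 0`.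

(3) Let `D` be constant, `e_k(s) = (2 ^ s - 1) (n_k + s_k) / 2 - (1 - 2 ^ (-s)) (n - n_k)`, where
`n = n₀ + n₁ + n₂`, and let `g(s)` be the largest of the numbers `0`, `e₀(s)`, `e₁(s)`, `e₂(s)`. For
every integer `q ≥ 1` and every `L` the sum of `(2 ^ rank * #Ш(W_t)[2]) ^ q` over `N < t ≤ N + M` is
at most `K M (1 + log M) ^ g(q)` for all `M ≥ 1` and `|N| ≤ M ^ L`; for all real `s, ε > 0` and `L`
the sum of `(2 ^ rank * #Ш(W_t)[2]) ^ s` is at least `M (log M) ^ (g(s) - ε)` for all large `M` and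
`|N| ≤ M ^ L`. The moment of order `q` is bounded if and only if `g(q) = 0`: the average of
`2 ^ rank * #Ш(W_t)[2]` is bounded if and only if `2 n_k + s_k ≤ n` for `k = 0, 1, 2`, the second
moment is bounded if and only if `n₀ = n₁ = n₂` and all the `s_k` are zero, and if `n > 0`, then no
moment of order `s > 2` is bounded.

(4) If `2 n_k < n₀ + n₁ + n₂` for all `k`, there is a set `Z` of integers of density zero, uniformly
in short intervals, which contains the zeros of `D u₀ u₁ u₂`, such that for all `k` and `L` there is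
`C` such that for all `M ≥ 1` and `|N| ≤ M ^ L` and the `W_t` with `t` outside of `Z`,
`N < t ≤ N + M`: all the groups `Ш(W_t)[2 ^ j]` are finite, the sum of
`(2 ^ rank * #Ш(W_t)[2 ^ j] ^ (1 / j)) ^ k` is at most `C M` for all `j ≥ 1`, and at most
`C M / 2 ^ (k (m + q))` of the `W_t` have rank at least `m` and a subgroup `(ℚ₂ / ℤ₂) ^ q` in the
Tate-Shafarevich group. -/
theorem result (n : Fin 3 → ℕ) (a : Fin 3 → ℤ)
    (f : ∀ k : Fin 3, Fin (n k) → ℤ[X]) (D : ℤ[X])
    (ha : ∀ k, a k ≠ 0) (hf : ∀ k i, Irreducible (f k i) ∧ 0 < (f k i).natDegree)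
    (hf' : ∀ k i l j, (⟨k, i⟩ : Σ k : Fin 3, Fin (n k)) ≠ ⟨l, j⟩ → ¬ Associated (f k i) (f l j))
    (hu : u a f 0 - u a f 1 = u a f 2) (hD : D ≠ 0) (hDf : ∀ k i, ¬ f k i ∣ D) :
    -- the lower bound for all the moments
    (∀ (m : ℕ) (g : Fin m → ℤ[X]) (c : ℤ) (K : ℕ), (∀ j, Irreducible (g j) ∧ 0 < (g j).natDegree) →
      c ≠ 0 → D ∣ C c * (∏ j, g j) ^ K → ∀ s ε : ℝ, 0 < s → 0 < ε → ∀ (L : ℕ) (k : Fin 3),
      ∃ M₀ : ℕ, ∀ (N : ℤ) (M : ℕ), M₀ ≤ M → |N| ≤ (M : ℤ) ^ L →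
        (M : ℝ) * (Real.log M) ^ ((2 ^ s - 1) * (((n k : ℝ) + sp D a f k) / 2) -
          (1 - 2 ^ (-s)) * (n 0 + n 1 + n 2 - n k + m : ℝ) - ε) ≤ Mom D a f s N M) ∧
    -- all the moments are bounded only for quadratic twists
    ((∀ s : ℝ, 0 < s → Bounded D a f s) ↔ ∀ k, n k = 0) ∧
    -- constant `D`
    ((∃ d : ℤ, D = C d) →
      (∀ q : ℕ, 1 ≤ q → ∀ L : ℕ, ∃ K : ℝ, ∀ (N : ℤ) (M : ℕ), 1 ≤ M → |N| ≤ (M : ℤ) ^ L →
        Mom D a f q N M ≤ K * (M * (1 + Real.log M) ^ grow D a f q)) ∧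
      (∀ s ε : ℝ, 0 < s → 0 < ε → ∀ L : ℕ, ∃ M₀ : ℕ, ∀ (N : ℤ) (M : ℕ), M₀ ≤ M →
        |N| ≤ (M : ℤ) ^ L → M * (Real.log M) ^ (grow D a f s - ε) ≤ Mom D a f s N M) ∧
      (∀ q : ℕ, 1 ≤ q → (Bounded D a f q ↔ grow D a f q = 0)) ∧
      (Bounded D a f 1 ↔ ∀ k, 2 * n k + sp D a f k ≤ n 0 + n 1 + n 2) ∧
      (Bounded D a f 2 ↔ n 0 = n 1 ∧ n 1 = n 2 ∧ ∀ k, sp D a f k = 0) ∧
      (0 < n 0 + n 1 + n 2 → ∀ s : ℝ, 2 < s → ¬ Bounded D a f s)) ∧
    -- all the moments are bounded outside of a set of density zero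
    ((∀ k, 2 * n k < n 0 + n 1 + n 2) → ∃ Z : Set ℤ, DensityZero Z ∧
      (∀ t, t ∉ Z → ∀ k, (D * u a f k).eval t ≠ 0) ∧
      ∀ k L : ℕ, ∃ C : ℝ, ∀ (N : ℤ) (M : ℕ), 1 ≤ M → |N| ≤ (M : ℤ) ^ L →
      (∀ t ∈ Par Z N M, ∀ j : ℕ, Finite (ShaTor (fib D a f t) (2 ^ j))) ∧
      (∀ j : ℕ, 1 ≤ j → ∑ t ∈ Par Z N M, ((2 : ℝ) ^ rk (fib D a f t) *
        (Nat.card (ShaTor (fib D a f t) (2 ^ j)) : ℝ) ^ ((1 : ℝ) / j)) ^ k ≤ C * M) ∧
      ∀ m q : ℕ, (((Par Z N M).filter (fun t => m ≤ rk (fib D a f t) ∧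
        HasDiv (fib D a f t) q)).card : ℝ) ≤ C * M / 2 ^ (k * (m + q))) := by
  have hpw := Pool.Agent.N861.EC.t_PW Pool.Agent.N870.EC.selge
  have hmp := Pool.Agent.N935.EC.t_MERP Pool.Agent.N265.EC.t_MER1
  have hm2 := Pool.Agent.N281.EC.t_MER2
  have hb : ∀ s : ℝ, Bounded D a f s ↔ Pool.Agent.N870.EC.BM D a f s := fun s => Iff.rfl
  have hsk : ∀ k, sp D a f k = Pool.Agent.N870.EC.sk D a f k := fun k => rfl
  refine ⟨?_, ?_, ?_, ?_⟩
  · intro m g c K hg hc hDg s ε hs hε L k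
    exact Pool.Agent.N870.EC.pen_low hpw hmp hm2 a f D ha hf hf' hu hD hDf g hg c K hc hDg s ε hs hε L k
  · simp only [hb]
    exact Pool.Agent.N870.EC.iso_iff hpw hmp hm2 a f D ha hf hf' hu hD hDf
  · rintro ⟨d, hd⟩
    have hd0 : d ≠ 0 := by
      rintro rfl
      exact hD (by rw [hd, C_0])
    have hgr : ∀ s : ℝ, grow D a f s = Pool.Agent.N870.D.gr D a f s := fun s => rfl
    have hex : ∀ q : ℕ, grow D a f q = 0 ↔ ∀ c, Pool.Agent.N870.D.ex D a f q c ≤ 0 := by
      intro q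
      rw [hgr]
      constructor
      · intro h c
        exact (Pool.Agent.N870.D.ex_le_gr D a f q c).trans h.le
      · intro h
        unfold Pool.Agent.N870.D.gr
        exact max_eq_left (max_le (h 0) (max_le (h 1) (h 2)))
    refine ⟨fun q hq L => ?_, fun s ε hs hε L => ?_, fun q hq => ?_, ?_, ?_, ?_⟩
    · subst hd
      obtain ⟨K, hK⟩ := Pool.Agent.N870.D.up_const Pool.Agent.N222.D.t_ATX Pool.Agent.N263.D.t_CMB
        a f d ha hf hf' hu hd0 q hq (Pool.Agent.N870.D.gr (C d) a f q)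
        (Pool.Agent.N870.D.gr_nonneg _ _ _ _) (Pool.Agent.N870.D.ex_le_gr (C d) a f q) L
      refine ⟨K, fun N M hM hN => le_trans (le_of_eq ?_) (hK N M hM hN)⟩
      unfold Mom
      refine Finset.sum_congr (by congr!) fun t _ => ?_
      rw [Real.rpow_natCast]
      rfl
    · subst hd
      obtain ⟨M0, hM0⟩ := Pool.Agent.N870.D.low_gr hpw hmp hm2 a f d ha hf hf' hu hd0 s ε hs hε L
      refine ⟨M0, fun N M hM hN => le_trans (hM0 N M hM hN) (le_of_eq ?_)⟩
      unfold Mom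
      exact Finset.sum_congr (by congr!) fun t _ => rfl
    · rw [hex, hb]
      subst hd
      exact Pool.Agent.N870.D.BM_iff hpw hmp hm2 a f d ha hf hf' hu hd0 q hq
    · simp only [hb, hsk]
      exact Pool.Agent.N870.EC.avg_iff hpw hmp hm2 a f D ha hf hf' hu hD hDf d hd
    · simp only [hb, hsk]
      refine ⟨Pool.Agent.N870.EC.second_moment hpw hmp hm2 a f D ha hf hf' hu hD hDf d hd, ?_⟩
      rintro ⟨h01, h12, h0⟩
      subst hd
      have h := (Pool.Agent.N870.D.BM_iff hpw hmp hm2 a f d ha hf hf' hu hd0 2 (by norm_num)).2 ?_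
      · exact_mod_cast h
      · intro c
        unfold Pool.Agent.N870.D.ex
        have hc : n c = n 2 := by
          fin_cases c
          · exact h01.trans h12
          · exact h12
          · rfl
        have h2 : (2 : ℝ) ^ (((2 : ℕ) : ℝ)) = 4 := by norm_num
        have h3 : (2 : ℝ) ^ (-((2 : ℕ) : ℝ)) = 1 / 4 := by
          rw [Real.rpow_neg (by norm_num), h2]
          norm_num
        rw [h2, h3, h0 c, hc, h01, h12]
        push_cast
        linarith
    · simp only [hb]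
      exact Pool.Agent.N870.EC.no_moment hpw hmp hm2 a f D ha hf hf' hu hD hDf d hd
  · intro hn
    have hirr : Pool.Agent.TH841.PT.Irr (Pool.Agent.TH841.TR.fp f) :=
      ⟨fun x => (hf x.1 x.2).1, fun x => (hf x.1 x.2).2, fun x y hxy => hf' x.1 x.2 y.1 y.2 hxy⟩
    obtain ⟨Z, h1, h2, h3⟩ := Pool.Agent.TH841.PM.penZQ Pool.Agent.TH841.PM.tavz a f ha hirr hu D
      hD hDf hn
    refine ⟨Z, h1, h2, fun k L => ?_⟩
    obtain ⟨C, hC⟩ := h3 k L
    exact ⟨C, fun N M hM hN => hC N M hM hN _ rfl⟩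

end Pool.Agent.Results.MP_e23604_nt.MomentGrowthInPencils
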