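import Pool.Agent.N869.GK.Z.Pat

/-!
# The 2-primary parts of `Ш` for several general curves and all products of divisors of almost every number

Let `E_1, …, E_m` be any elliptic curves over `ℚ` with full rational 2-torsion and without a rational cyclic
isogeny of degree four (`y² = (x - e 0) (x - e 1) (x - e 2)`, no product `(e i - e j) (e i - e l)` a square),
without any condition on complex multiplication, modularity or the analytic rank, with even 2-Selmer
ranks, and such that the differences of the roots of different curves do not agree modulo squares (for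
example different positive twists of one curve, or curves that are not related at all). Let `2 N` be
divisible by all the bad primes. For a squarefree number `f` prime to `2 N` we consider all the `n`-tuples
`(d_1, …, d_n)` of divisors of `f` in the principal class (squares in `ℝ` and in `ℚ_p` for the `p` dividing `2 N`),
independent modulo squares, and the `m (2 ^ n - 1)` twists `E_k^{d_T}`, `d_T = ∏_{i ∈ T} d_i`, `T ≠ ∅`. Call
`E_k^{d_T}` trivial if its rank is `0` and the 2-primary part of `Ш(E_k^{d_T}/ℚ)` is `0`.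

For ALMOST EVERY SINGLE `f` (natural density one), and not only on the average over `f`:

* (joint law) all the twists of all the curves are independent: for any set `𝒯` of nonempty subsets `T` the set
  of the pairs `(k, T)`, `T ∈ 𝒯`, for which `E_k^{d_T}` is trivial is distributed, in the set of the tuples of
  divisors of the single number `f`, like a random set which contains each of the `M = m #𝒯` pairs with
  the probability `κ = ∏_{i ≥ 0} (1 - 2 ^ (-2 i - 1)) = 0.4194…`, independently (up to any `δ > 0`);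
* (law of large numbers inside the tuples) so for nearly all the tuples nearly `41.9` percent of the `M` twists
  are trivial: for all but a proportion `κ (1 - κ) / (ε² M)` of the tuples the number of the trivial twists
  is between `(κ - ε) M` and `(κ + ε) M`;
* the proportion of the tuples for which ALL the `E_k^{d_T}`, `T ∈ 𝒯`, are trivial is as close as we like to
  `κ ^ (m #𝒯)`;
* the proportion of the tuples for which AT LEAST ONE of the curves `E_1, …, E_m` is trivial for all the `T ∈ 𝒯` is
  as close as we like to `1 - (1 - κ ^ #𝒯) ^ m`;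
* for all but a proportion `(2 ^ n - 1) (1 - κ) ^ m` of the tuples there is for EVERY `T ≠ ∅` a curve `E_k` such that
  `E_k^{d_T}` is trivial. So if the list of the curves is long enough, then for nearly all the tuples of
  divisors of almost every `f` the twist of some curve of the list by every product has finitely many rational
  points and a trivial 2-primary part of `Ш`.

Known before: one curve and one twist on the average over all `d` (Heath-Brown, Swinnerton-Dyer, Kane
for `Ш[2]`; Smith). The divisors of almost all `f ≤ X` are a thin set, of about `(log X)^(log 2)` elements.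

Proof. The 2-Selmer groups of the twists are the kernels of matrices over `𝔽₂` given by the quadratic symbols
between the primes dividing the twist and their classes in a finite group; the local conditions at the
bad places are maximal isotropic subspaces (the orders of `E(ℚ_p)/2E(ℚ_p)`). First and second moments over
random colourings of the primes dividing `f`, boxes of large primes, the large sieve for quadratic
symbols, all the moments of the numbers of solutions for all the systems at once (sums over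
decorations, sets stable under products of matrix algebras), and an inversion of the moments with given
parity (`Pool/Agent/N869/GK`; parts by helpers 3, 7, 9, 19, 27, 42, 49, 55, 67, 91, 128, 163, 170, 195, 199,
221, 247, 263, 265, 271, 273, 286, 300, 306, 314, 340, 342, 344, 364, 372, 383, 386, 391, 395, 401, 413, 434,
454, 475, 478, 488, 495, 514, 527, 558, 572, 588, 592, 595, 603, 617, 655, 661, 690, 693, 700, 701, 713, 723,
803, 814, 833, 835, 853, 869, 891, 901, 933, 954).
-/

set_option autoImplicit false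

namespace Pool.Agent.Results.MP_e23604_nt.TrivialTwoParts

open Pool.Agent.N869.GK.Z (E tw Kane Apart rank Sha SelRank Conductor Disc Independent AlmostAll kappa)

/-- The `n`-tuples of divisors of `f` in the principal class, independent modulo squares. -/
def tuples (N n f : ℕ) : Set (Fin n → ℕ) :=
  {d | (∀ i, d i ∣ f ∧ Disc N (d i)) ∧ Independent d}

/-- The twist of the curve by `d_T = ∏_{i ∈ T} d_i` has rank `0` and the 2-primary part of its
Tate-Shafarevich group over `ℚ` is `0`. -/
def Trivial (e : Fin 3 → ℤ) {n : ℕ} (d : Fin n → ℕ) (T : Finset (Fin n)) : Prop :=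
  rank ℚ (tw (∏ i ∈ T, (d i : ℤ)) e) = 0 ∧
    ∀ x : Sha ℚ (tw (∏ i ∈ T, (d i : ℤ)) e), (∃ j : ℕ, 2 ^ j • x = 0) → x = 0

/-- There are tuples, finitely many, and the proportion of those with the property `P` differs from `q` by
at most `δ`. -/
def Close (N : ℕ) {n : ℕ} (P : (Fin n → ℕ) → Prop) (q δ : ℝ) (f : ℕ) : Prop :=
  (tuples N n f).Finite ∧ 0 < (tuples N n f).ncard ∧
    |({d ∈ tuples N n f | P d}.ncard : ℝ) / ((tuples N n f).ncard : ℝ) - q| ≤ δ

/-- There are tuples, finitely many, and the proportion of those with the property `P` is at least `q - δ`. -/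
def AtLeast (N : ℕ) {n : ℕ} (P : (Fin n → ℕ) → Prop) (q δ : ℝ) (f : ℕ) : Prop :=
  (tuples N n f).Finite ∧ 0 < (tuples N n f).ncard ∧
    q - δ ≤ ({d ∈ tuples N n f | P d}.ncard : ℝ) / ((tuples N n f).ncard : ℝ)

open Classical in
/-- the set of the pairs `(k, T)`, `T ∈ 𝒯`, for which `E_k^{d_T}` is trivial -/
noncomputable def good {m : ℕ} (e : Fin m → Fin 3 → ℤ) {n : ℕ} (𝒯 : Finset (Finset (Fin n)))
    (d : Fin n → ℕ) : Finset (Fin m × Finset (Fin n)) :=
  ((Finset.univ : Finset (Fin m)) ×ˢ 𝒯).filter fun a => Trivial (e a.1) d a.2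

section proof

open Pool.Agent.N869.GK

lemma tuples_eq (N n f : ℕ) : tuples N n f = Z.fam N false n f := by
  ext d
  constructor
  · rintro ⟨h1, h2⟩
    exact ⟨h1, h2, fun h => absurd h (by decide)⟩
  · rintro ⟨h1, h2, -⟩
    exact ⟨h1, h2⟩

lemma prim {G : Type} [AddCommGroup G] (h : ∀ x : G, x + x = 0 → x = 0) (j : ℕ) :
    ∀ x : G, 2 ^ j • x = 0 → x = 0 := by
  induction j with
  | zero =>
    intro x hx
    rwa [pow_zero, one_smul] at hx
  | succ j ih =>
    intro x hx
    apply ih
    apply h
    rw [← two_nsmul, ← mul_nsmul, ← pow_succ]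
    exact hx

lemma triv_iff {N : ℕ} {e : Fin 3 → ℤ} (h : Kane N e) {f n : ℕ} (hf : Conductor N f) {d : Fin n → ℕ}
    (hd : d ∈ tuples N n f) (T : Finset (Fin n)) :
    SelRank (tw (∏ i ∈ T, (d i : ℤ)) e) 0 ↔ Trivial e d T := by
  have hpos : ∀ i, 0 < d i := fun i =>
    Nat.pos_of_ne_zero fun h => hf.1.ne_zero (zero_dvd_iff.1 (h ▸ (hd.1 i).1))
  have hne : ∏ i ∈ T, (d i : ℤ) ≠ 0 :=
    Finset.prod_ne_zero_iff.2 fun i _ => by exact_mod_cast (hpos i).ne'
  rw [Z.selrank_zero h hne]
  constructor
  · rintro ⟨h1, h2⟩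
    exact ⟨h1, fun x ⟨j, hj⟩ => prim h2 j x hj⟩
  · rintro ⟨h1, h2⟩
    exact ⟨h1, fun x hx => h2 x ⟨1, by rw [pow_one, two_nsmul]; exact hx⟩⟩

lemma good_eq {N : ℕ} {m : ℕ} {e : Fin m → Fin 3 → ℤ} (he : ∀ k, Kane N (e k)) {f n : ℕ}
    (hf : Conductor N f) (𝒯 : Finset (Finset (Fin n))) {d : Fin n → ℕ} (hd : d ∈ tuples N n f) :
    Z.sat 𝒯 (Z.IsMin e d) = good e 𝒯 d := by
  have h1 : Z.sat 𝒯 (fun k T => Trivial (e k) d T) = good e 𝒯 d := rfl
  rw [← h1]
  exact Z.sat_congr fun k T _ => triv_iff (he k) hf hd T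

lemma near_close {N n : ℕ} {P Q : (Fin n → ℕ) → Prop} {q δ : ℝ} {f : ℕ}
    (h : Z.Near N false P q δ f) (hPQ : ∀ d ∈ tuples N n f, P d ↔ Q d) : Close N Q q δ f := by
  have hPQ' : ∀ x ∈ Z.fam N false n f, P x ↔ Q x := by
    rw [← tuples_eq]
    exact hPQ
  obtain ⟨h1, h2, h3⟩ := h.congr hPQ'
  rw [← tuples_eq] at h1 h2 h3
  exact ⟨h1, h2, h3⟩

lemma least_least {N n : ℕ} {P Q : (Fin n → ℕ) → Prop} {q δ : ℝ} {f : ℕ}
    (h : Z.AtLeast N false P q δ f) (hPQ : ∀ d ∈ tuples N n f, P d → Q d) : AtLeast N Q q δ f := by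
  have hPQ' : ∀ x ∈ Z.fam N false n f, P x → Q x := by
    rw [← tuples_eq]
    exact hPQ
  obtain ⟨h1, h2, h3⟩ := h.mono hPQ'
  rw [← tuples_eq] at h1 h2 h3
  exact ⟨h1, h2, h3⟩

end proof

/-- **Main theorem.** Let `E_1, …, E_m` be elliptic curves as above, with even 2-Selmer ranks, and `𝒯` a set of
nonempty subsets of `{1, …, n}`, `M = m #𝒯`. For almost all squarefree `f` prime to `2 N`, in the set of the tuples
of divisors of `f`:
(1) for every set `𝒥` of sets `J` of pairs `(k, T)`, `T ∈ 𝒯`, the proportion of those for which the set of the pairs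
with trivial `E_k^{d_T}` (rank `0` and trivial 2-primary part of `Ш`) is in `𝒥` differs from
`∑_{J ∈ 𝒥} κ ^ #J (1 - κ) ^ (M - #J)` by at most `δ`;
(2) the proportion of those for which ALL the pairs are trivial differs from `κ ^ M` by at most `δ`;
(3) the proportion of those for which some `k` is trivial for all `T ∈ 𝒯` differs from
`1 - (1 - κ ^ #𝒯) ^ m` by at most `δ`;
(4) the proportion of those for which EVERY `T ≠ ∅` is trivial for some `k` is at least
`1 - (2 ^ n - 1) (1 - κ) ^ m - δ`;
(5) if `M > 0`, then for all `ε > 0` the proportion of those for which the number of the trivial pairs differs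
from `κ M` by at most `ε M` is at least `1 - κ (1 - κ) / (ε ^ 2 M) - δ`. -/
theorem result (N : ℕ) (hN : 0 < N) (m : ℕ) (e : Fin m → Fin 3 → ℤ) (he : ∀ k, Kane N (e k))
    (ha : ∀ k k', k ≠ k' → Apart (e k) (e k')) (hr : ∀ k, ∃ r, SelRank (e k) (2 * r)) (n : ℕ)
    (𝒯 : Finset (Finset (Fin n))) (h𝒯 : ∀ T ∈ 𝒯, T.Nonempty) (δ : ℝ) (hδ : 0 < δ) :
    (∀ 𝒥 : Finset (Finset (Fin m × Finset (Fin n))),
      (∀ J ∈ 𝒥, J ⊆ (Finset.univ : Finset (Fin m)) ×ˢ 𝒯) →
      AlmostAll (Conductor N) (Close N (fun d : Fin n → ℕ => good e 𝒯 d ∈ 𝒥)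
        (∑ J ∈ 𝒥, kappa ^ J.card * (1 - kappa) ^ (m * 𝒯.card - J.card)) δ)) ∧
    AlmostAll (Conductor N) (Close N (fun d : Fin n → ℕ => ∀ k, ∀ T ∈ 𝒯, Trivial (e k) d T)
      (kappa ^ (m * 𝒯.card)) δ) ∧
    AlmostAll (Conductor N) (Close N (fun d : Fin n → ℕ => ∃ k, ∀ T ∈ 𝒯, Trivial (e k) d T)
      (1 - (1 - kappa ^ 𝒯.card) ^ m) δ) ∧
    AlmostAll (Conductor N) (AtLeast N
      (fun d : Fin n → ℕ => ∀ T : Finset (Fin n), T.Nonempty → ∃ k, Trivial (e k) d T)
      (1 - (2 ^ n - 1) * (1 - kappa) ^ m) δ) ∧
    (0 < m * 𝒯.card → ∀ ε : ℝ, 0 < ε → AlmostAll (Conductor N) (AtLeast N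
      (fun d : Fin n → ℕ => |((good e 𝒯 d).card : ℝ) - kappa * (m * 𝒯.card : ℕ)| ≤
        ε * (m * 𝒯.card : ℕ))
      (1 - kappa * (1 - kappa) / (ε ^ 2 * (m * 𝒯.card : ℕ))) δ)) ∧
    0.4194 < kappa ∧ kappa < 0.4195 := by
  have hn : false = true → 2 ≤ n := fun h => absurd h (by decide)
  refine ⟨fun 𝒥 h𝒥 => ?_, ?_, ?_, ?_, fun hM ε hε => ?_, Pool.Agent.N869.GK.Z.kappa_bd.1,
    Pool.Agent.N869.GK.Z.kappa_bd.2⟩
  · exact (Pool.Agent.N869.GK.Z.law_pat' hN he hr ha false n hn 𝒯 h𝒯 𝒥 h𝒥 hδ).mono fun f hf h =>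
      near_close h fun d hd => by rw [good_eq he hf 𝒯 hd]
  · exact (Pool.Agent.N869.GK.Z.lawX0 hN he hr ha false n hn 𝒯 h𝒯 hδ).mono fun f hf h =>
      near_close h fun d hd => ⟨fun h k T hT => (triv_iff (he k) hf hd T).1 (h T hT k),
        fun h T hT k => (triv_iff (he k) hf hd T).2 (h k T hT)⟩
  · exact (Pool.Agent.N869.GK.Z.law_one hN he hr ha false n hn 𝒯 h𝒯 hδ).mono fun f hf h =>
      near_close h fun d hd => exists_congr fun k => forall_congr' fun T => forall_congr' fun _ =>
        triv_iff (he k) hf hd T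
  · exact (Pool.Agent.N869.GK.Z.law_some hN he hr ha false n hn hδ).mono fun f hf h =>
      least_least h fun d hd h T hT => (h T hT).imp fun k hk => (triv_iff (he k) hf hd T).1 hk
  · exact (Pool.Agent.N869.GK.Z.law_num hN he hr ha false n hn 𝒯 h𝒯 hM hε hδ).mono fun f hf h =>
      least_least h fun d hd h => by rwa [good_eq he hf 𝒯 hd] at h

end Pool.Agent.Results.MP_e23604_nt.TrivialTwoParts
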